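import Mathlib
import Pool.Agent.Lib_helper14.LPMixed

/-!
# A limit-periodic Schroedinger operator with mixed spectral type
-/

set_option autoImplicit false
open MeasureTheory Filter Topology

namespace Pool.Agent.Results.MP_7b7407_mp.MixedType

/-- The Hilbert space `ℓ²(ℤ)`. -/
abbrev L2 : Type := lp (fun _ : ℤ => ℂ) 2

/-- `V` is periodic. -/
def Per (V : ℤ → ℝ) : Prop := ∃ p : ℕ, 0 < p ∧ ∀ n : ℤ, V (n + p) = V n

/-- `V` is limit-periodic: it is the uniform limit of a sequence of periodic functions. -/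
def LimPer (V : ℤ → ℝ) : Prop :=
  ∃ W : ℕ → ℤ → ℝ, (∀ k, Per (W k)) ∧ TendstoUniformly W V atTop

/-- `H` is the discrete Schroedinger operator with potential `V`. -/
def IsSchr (V : ℤ → ℝ) (H : L2 →L[ℂ] L2) : Prop :=
  ∀ (ψ : L2) (n : ℤ), H ψ n = ψ (n + 1) + ψ (n - 1) + (V n : ℂ) * ψ n

section

variable {F : Type} [NormedAddCommGroup F] [InnerProductSpace ℂ F] [CompleteSpace F]

/-- `μ` is the spectral measure of `ψ` with respect to the bounded self-adjoint operator `H`: the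
finite Borel measure on the line with `∫ f dμ = ⟨ψ, f(H) ψ⟩` for all continuous `f`, where `f(H)`
is given by the continuous functional calculus. -/
def IsSpecMeas (H : F →L[ℂ] F) (ψ : F) (μ : Measure ℝ) : Prop :=
  IsFiniteMeasure μ ∧ ∀ f : ℝ → ℝ, Continuous f →
    Integrable f μ ∧ ((∫ x, f x ∂μ : ℝ) : ℂ) = inner ℂ ψ ((cfc f H : F →L[ℂ] F) ψ)

/-- The absolutely continuous subspace: the vectors whose spectral measure is absolutely
continuous with respect to Lebesgue measure. -/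
def Hac (H : F →L[ℂ] F) : Set F := {ψ | ∃ μ : Measure ℝ, IsSpecMeas H ψ μ ∧ μ ≪ volume}

/-- The pure point subspace: the vectors whose spectral measure is carried by a countable set. -/
def Hpp (H : F →L[ℂ] F) : Set F :=
  {ψ | ∃ μ : Measure ℝ, IsSpecMeas H ψ μ ∧ ∃ S : Set ℝ, S.Countable ∧ μ Sᶜ = 0}

theorem isSpecMeas_of_isSpec {H : F →L[ℂ] F} {ψ : F} {μ : Measure ℝ}
    (h : IsFiniteMeasure μ) (hμ : LP.IsSpec H ψ μ) : IsSpecMeas H ψ μ := by
  refine ⟨h, fun f hf => ⟨(hμ f hf).1, ?_⟩⟩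
  rw [(hμ f hf).2]
  exact (LP.inner_cfc_real H f ψ).symm

end

/-- There is a limit-periodic potential for which both the absolutely continuous and the pure
point subspace of the Schroedinger operator are nonzero. -/
theorem result : ∃ (V : ℤ → ℝ) (H : L2 →L[ℂ] L2), LimPer V ∧ IsSchr V H ∧ IsSelfAdjoint H ∧
    (∃ ψ ∈ Hac H, ψ ≠ 0) ∧ (∃ ψ ∈ Hpp H, ψ ≠ 0) := by
  refine ⟨LP.VV, LP.HH, ?_, fun ψ n => LP.opH_apply _ _ _ ψ n,
    LP.opH_isSelfAdjoint _ _ _, ?_, ?_⟩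
  · have h1 : ∀ k : ℕ, ∃ W : ℤ → ℝ, Per W ∧ ∀ n : ℤ, |LP.VV n - W n| < 1 / ((k : ℝ) + 1) := by
      intro k
      obtain ⟨p, hp, W, hW1, hW2⟩ := LP.VV_limit_periodic (1 / ((k : ℝ) + 1)) (by positivity)
      exact ⟨W, ⟨p, hp, hW1⟩, hW2⟩
    choose W hW1 hW2 using h1
    refine ⟨W, hW1, ?_⟩
    rw [Metric.tendstoUniformly_iff]
    intro ε hε
    have h2 := tendsto_one_div_add_atTop_nhds_zero_nat (𝕜 := ℝ)
    filter_upwards [h2.eventually (gt_mem_nhds hε)] with k hk n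
    rw [Real.dist_eq]
    exact (hW2 k n).trans hk
  · obtain ⟨φ, ν, h1, h2, h3, h4⟩ := LP.exists_ac
    exact ⟨φ, ⟨ν, isSpecMeas_of_isSpec h2 h3, h4⟩, h1⟩
  · obtain ⟨U, ν, a, h1, h2, h3, h4⟩ := LP.exists_pp
    exact ⟨U, ⟨ν, isSpecMeas_of_isSpec h2 h3, {a}, Set.countable_singleton a, h4⟩, h1⟩

end Pool.Agent.Results.MP_7b7407_mp.MixedType
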